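import Pool.Agent.H97.LAY.Stmts4

/-!
# LAY: CHL, a lower bound for a binomial coefficient
-/

set_option autoImplicit false

namespace Pool.LAY

open Finset

theorem chl_pow (x : ℕ) : ∀ p : ℕ, x ≤ p → p ^ x ≤ x ^ x * p.choose x := by
  induction x with
  | zero =>
    intro p _
    simp
  | succ x ih =>
    intro p hp
    obtain ⟨r, rfl⟩ : ∃ r, p = r + 1 := ⟨p - 1, by omega⟩
    have hr : x ≤ r := by omega
    have h1 := ih r hr
    have h2 : (r + 1) * x ≤ r * (x + 1) := by nlinarith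
    have h3 : (r + 1) ^ x * x ^ x ≤ (x + 1) ^ x * r.choose x * x ^ x := by
      calc (r + 1) ^ x * x ^ x = ((r + 1) * x) ^ x := (mul_pow _ _ _).symm
        _ ≤ (r * (x + 1)) ^ x := Nat.pow_le_pow_left h2 _
        _ = (x + 1) ^ x * r ^ x := by rw [mul_pow, mul_comm]
        _ ≤ (x + 1) ^ x * (x ^ x * r.choose x) := Nat.mul_le_mul_left _ h1
        _ = _ := by ring
    have h4 : 0 < x ^ x := by
      rcases Nat.eq_zero_or_pos x with h | h
      · subst h
        simp
      · exact pow_pos h _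
    have h5 : (r + 1) ^ x ≤ (x + 1) ^ x * r.choose x := Nat.le_of_mul_le_mul_right h3 h4
    have h6 : (r + 1) * r.choose x = (r + 1).choose (x + 1) * (x + 1) :=
      Nat.add_one_mul_choose_eq r x
    calc (r + 1) ^ (x + 1) = (r + 1) ^ x * (r + 1) := pow_succ _ _
      _ ≤ (x + 1) ^ x * r.choose x * (r + 1) := Nat.mul_le_mul_right _ h5
      _ = (x + 1) ^ x * ((r + 1) * r.choose x) := by ring
      _ = (x + 1) ^ x * ((r + 1).choose (x + 1) * (x + 1)) := by rw [h6]
      _ = _ := by ring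

theorem CHL : CHLStmt := by
  intro x v hx hv
  refine ⟨v / 2, v - v / 2, by omega, by omega, by omega, ?_⟩
  obtain ⟨p, hp⟩ : ∃ p, p = v / 2 := ⟨_, rfl⟩
  rw [← hp]
  have h1 : v ≤ 3 * p := by omega
  have h2 : v ≤ 2 * (v - p) := by omega
  have h3 := chl_pow x p (by omega)
  calc v ^ (x + 1) = v ^ x * v := pow_succ _ _
    _ ≤ (3 * p) ^ x * (2 * (v - p)) := Nat.mul_le_mul (Nat.pow_le_pow_left h1 _) h2
    _ = 3 ^ x * p ^ x * (2 * (v - p)) := by rw [mul_pow]
    _ ≤ 3 ^ x * (x ^ x * p.choose x) * (2 * (v - p)) :=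
        Nat.mul_le_mul_right _ (Nat.mul_le_mul_left _ h3)
    _ = _ := by
        rw [mul_pow]
        ring

end Pool.LAY
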