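import Pool.Agent.H97.LAY.Stmts4

/-!
# LAY: DPR, a product of two counts below one count
-/

set_option autoImplicit false

namespace Pool.LAY

open Finset

theorem dpr_mono (bs X : List ℕ) (x : ℕ) : D bs X ≤ D bs (x :: X) := by
  cases bs with
  | nil => simp [D]
  | cons b bs =>
    rw [show D (b :: bs) (x :: X) = x.choose b * D bs X + D (b :: bs) X from rfl]
    exact Nat.le_add_left _ _

theorem DPR : DPRStmt := by
  intro as bs X Y
  induction X generalizing as with
  | nil =>
    cases as with
    | nil => simp [D]
    | cons a as => simp [D]
  | cons x X ih =>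
    cases as with
    | nil =>
      rw [show D [] (x :: X) = 1 from rfl, one_mul, List.nil_append, List.cons_append]
      have h := ih []
      rw [show D [] X = 1 by cases X <;> rfl, one_mul, List.nil_append] at h
      exact h.trans (dpr_mono _ _ _)
    | cons a as =>
      rw [show D (a :: as) (x :: X) = x.choose a * D as X + D (a :: as) X from rfl,
        List.cons_append, List.cons_append,
        show D (a :: (as ++ bs)) (x :: (X ++ Y)) =
          x.choose a * D (as ++ bs) (X ++ Y) + D (a :: (as ++ bs)) (X ++ Y) from rfl, add_mul]
      refine Nat.add_le_add ?_ (ih (a :: as))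
      rw [mul_assoc]
      exact Nat.mul_le_mul_left _ (ih as)

end Pool.LAY
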