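import Pool.Agent.H97.LAY.Stmts5
import Pool.Agent.H97.LAY.QNN

set_option autoImplicit false

namespace Pool.LAY

open Finset

theorem era_nn_eraseIdx (pre : List ℝ) (i : ℕ) (h : NN pre) : NN (pre.eraseIdx i) := by
  intro y hy
  exact h y (List.mem_of_mem_eraseIdx hy)

/-- row ERA -/
theorem ERA : ERAStmt := by
  intro L pre
  induction pre generalizing L with
  | nil =>
      intro _ hlen
      simp at hlen
  | cons x pre ih =>
      intro hnn hlen
      have hx : 0 ≤ x := hnn x (by simp)
      have hpre : NN pre := fun y hy => hnn y (by simp [hy])
      rw [List.length_cons, Finset.sum_range_succ']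
      have h0 : (x :: pre).eraseIdx 0 = pre := rfl
      have hs : ∀ i, (x :: pre).eraseIdx (i + 1) = x :: pre.eraseIdx i := fun i => rfl
      simp only [h0, hs]
      cases L with
      | nil =>
          have hnn' : 0 ≤ ∑ i ∈ range pre.length, Q [] (x :: pre.eraseIdx i) :=
            Finset.sum_nonneg (fun i _ => by simp [Q])
          have e1 : Q [] (x :: pre) = 1 := by simp [Q]
          have e2 : Q [] pre = 1 := by simp [Q]
          rw [e1, e2]
          linarith
      | cons l L =>
          have hlen' : L.length < pre.length := by
            simpa using hlen
          have h1 := ih L hpre hlen'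
          have e1 : Q (l :: L) (x :: pre) = x ^ l * Q L pre + Q (l :: L) pre := by
            rw [Q]
          rw [e1]
          have h2 : x ^ l * Q L pre ≤ ∑ i ∈ range pre.length, Q (l :: L) (x :: pre.eraseIdx i) := by
            calc x ^ l * Q L pre ≤ x ^ l * ∑ i ∈ range pre.length, Q L (pre.eraseIdx i) :=
                  mul_le_mul_of_nonneg_left h1 (pow_nonneg hx l)
              _ = ∑ i ∈ range pre.length, x ^ l * Q L (pre.eraseIdx i) := by
                  rw [Finset.mul_sum]
              _ ≤ ∑ i ∈ range pre.length, Q (l :: L) (x :: pre.eraseIdx i) := by
                  apply Finset.sum_le_sum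
                  intro i _
                  have e3 : Q (l :: L) (x :: pre.eraseIdx i)
                      = x ^ l * Q L (pre.eraseIdx i) + Q (l :: L) (pre.eraseIdx i) := by
                    rw [Q]
                  rw [e3]
                  have := qnn_nonneg (pre.eraseIdx i) (l :: L) (era_nn_eraseIdx pre i hpre)
                  linarith
          linarith

end Pool.LAY
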