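import Pool.Agent.H97.LAY.Stmts2

/-!
# LAY: K12, the constant for the pair `1, b`
-/

set_option autoImplicit false

namespace Pool.LAY

open Finset

theorem k12_bin (k : ℕ) (z y : ℝ) (hz : 0 ≤ z) (hy : 0 ≤ y) :
    z ^ (k + 3) + y ^ (k + 3) + ((k : ℝ) + 3) * (z * y ^ (k + 2)) +
      ((k : ℝ) + 2) * ((k : ℝ) + 3) / 2 * (z ^ 2 * y ^ (k + 1)) ≤ (z + y) ^ (k + 3) := by
  induction k with
  | zero =>
    apply le_of_eq
    push_cast
    ring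
  | succ k ih =>
    have h1 := mul_le_mul_of_nonneg_right ih (add_nonneg hz hy)
    rw [← pow_succ] at h1
    have e1 : (0 : ℝ) ≤ z ^ (k + 3) * y := by positivity
    have e2 : (0 : ℝ) ≤ ((k : ℝ) + 2) * ((k : ℝ) + 3) / 2 * (z ^ 3 * y ^ (k + 1)) := by positivity
    refine le_trans ?_ h1
    have e3 : (z ^ (k + 3) + y ^ (k + 3) + ((k : ℝ) + 3) * (z * y ^ (k + 2)) +
        ((k : ℝ) + 2) * ((k : ℝ) + 3) / 2 * (z ^ 2 * y ^ (k + 1))) * (z + y) =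
        (z ^ (k + 1 + 3) + y ^ (k + 1 + 3) + (((k + 1 : ℕ) : ℝ) + 3) * (z * y ^ (k + 1 + 2)) +
          (((k + 1 : ℕ) : ℝ) + 2) * (((k + 1 : ℕ) : ℝ) + 3) / 2 * (z ^ 2 * y ^ (k + 1 + 1))) +
          z ^ (k + 3) * y +
          ((k : ℝ) + 2) * ((k : ℝ) + 3) / 2 * (z ^ 3 * y ^ (k + 1)) := by
      push_cast
      ring
    rw [e3]
    linarith

theorem k12_step (b : ℕ) (z y : ℝ) (hb : 2 ≤ b) (hz : 0 ≤ z) (hy : 0 ≤ y) :
    2 * ((b : ℝ) + 1) * (z * y ^ b) ≤ (z + y) ^ (b + 1) - z ^ (b + 1) := by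
  obtain ⟨k, rfl⟩ : ∃ k, b = k + 2 := ⟨b - 2, by omega⟩
  have h1 := k12_bin k z y hz hy
  have h2 : (0 : ℝ) ≤ y ^ (k + 1) * ((y - ((k : ℝ) + 3) / 2 * z) ^ 2 +
      ((k : ℝ) + 3) * ((k : ℝ) + 1) / 4 * z ^ 2) := by positivity
  have e1 : y ^ (k + 3) + ((k : ℝ) + 3) * (z * y ^ (k + 2)) +
      ((k : ℝ) + 2) * ((k : ℝ) + 3) / 2 * (z ^ 2 * y ^ (k + 1)) =
      2 * (((k + 2 : ℕ) : ℝ) + 1) * (z * y ^ (k + 2)) +
        y ^ (k + 1) * ((y - ((k : ℝ) + 3) / 2 * z) ^ 2 +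
      ((k : ℝ) + 3) * ((k : ℝ) + 1) / 4 * z ^ 2) := by
    push_cast
    ring
  have e2 : k + 2 + 1 = k + 3 := rfl
  rw [e2]
  linarith

theorem k12_ind (b : ℕ) (hb : 2 ≤ b) (ys : List ℝ) (hn : NN ys) : ∀ z : ℝ, 0 ≤ z →
    2 * ((b : ℝ) + 1) * (z * Q [b] ys + Q [1, b] ys) ≤ (z + ys.sum) ^ (b + 1) - z ^ (b + 1) := by
  induction ys with
  | nil =>
    intro z hz
    simp [Q]
  | cons y ys ih =>
    intro z hz
    have hn' : NN ys := fun x hx => hn x (List.mem_cons_of_mem _ hx)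
    have hy : 0 ≤ y := hn y List.mem_cons_self
    have h1 := ih hn' (z + y) (add_nonneg hz hy)
    have h2 := k12_step b z y hb hz hy
    have e1 : Q [b] (y :: ys) = y ^ b + Q [b] ys := by simp [Q]
    have e2 : Q [1, b] (y :: ys) = y * Q [b] ys + Q [1, b] ys := by simp [Q]
    rw [e1, e2, List.sum_cons, ← add_assoc z y ys.sum]
    calc 2 * ((b : ℝ) + 1) * (z * (y ^ b + Q [b] ys) + (y * Q [b] ys + Q [1, b] ys)) =
          2 * ((b : ℝ) + 1) * (z * y ^ b) +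
            2 * ((b : ℝ) + 1) * ((z + y) * Q [b] ys + Q [1, b] ys) := by ring
      _ ≤ _ := by linarith

theorem K12 (h1 : W11Stmt) : K12Stmt := by
  intro b ys hb hn
  unfold kap
  split_ifs with hb1
  · subst hb1
    have h2 := h1 ys hn
    have e1 : ys.sum ^ (1 + 1) = ys.sum ^ 2 := rfl
    rw [e1]
    linarith
  · have hb2 : 2 ≤ b := by omega
    have h2 := k12_ind b hb2 ys hn 0 le_rfl
    rw [zero_mul, zero_add, zero_add, zero_pow (by omega), sub_zero] at h2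
    have h3 : (0 : ℝ) < 2 * ((b : ℝ) + 1) := by positivity
    rw [one_div, inv_mul_eq_div, le_div_iff₀ h3]
    linarith

end Pool.LAY
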