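import Pool.Agent.H97.LAY.Stmts

/-!
# LAY: LEN, length bound from blocks
-/

set_option autoImplicit false

namespace Pool.LAY

open Finset

theorem LEN : LENStmt := by
  intro ns h ε hh hε H
  by_contra hlen
  push Not at hlen
  obtain ⟨B, hB⟩ : ∃ B : ℕ, B = ⌈1 / ε⌉₊ + 1 := ⟨_, rfl⟩
  rw [← hB] at hlen
  obtain ⟨S, hS⟩ : ∃ S : ℝ, S = (ns.sum : ℝ) := ⟨_, rfl⟩
  have hblk : ∀ j : ℕ, j + 1 ≤ B → ε * S < (((ns.drop (j * h)).take h).sum : ℝ) := by
    intro j hj
    have h1 : (j + 1) * h ≤ ns.length := (Nat.mul_le_mul_right h hj).trans (by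
      rw [mul_comm]
      exact hlen.le)
    rw [hS]
    refine H (ns.take (j * h)) ((ns.drop (j * h)).take h) ((ns.drop (j * h)).drop h) ?_ ?_
    · rw [List.append_assoc, List.take_append_drop, List.take_append_drop]
    · rw [List.length_take, List.length_drop]
      have h2 : (j + 1) * h = j * h + h := by ring
      omega
  have key : ∀ j : ℕ, j + 1 ≤ B →
      ((j + 1 : ℕ) : ℝ) * (ε * S) < ((ns.take ((j + 1) * h)).sum : ℝ) := by
    intro j
    induction j with
    | zero =>
      intro hj
      have h1 := hblk 0 hj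
      rw [Nat.zero_mul, List.drop_zero] at h1
      rw [Nat.zero_add, one_mul, Nat.cast_one, one_mul]
      exact h1
    | succ j ih =>
      intro hj
      have h1 := ih (by omega)
      have h2 := hblk (j + 1) hj
      have h3 : ns.take ((j + 1 + 1) * h) =
          ns.take ((j + 1) * h) ++ (ns.drop ((j + 1) * h)).take h := by
        rw [show (j + 1 + 1) * h = (j + 1) * h + h by ring, List.take_add]
      rw [h3, List.sum_append, Nat.cast_add (j + 1) 1, Nat.cast_one, add_mul, one_mul,
        Nat.cast_add (ns.take ((j + 1) * h)).sum]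
      linarith
  have h1 := key ⌈1 / ε⌉₊ (by omega)
  rw [← hB] at h1
  have h2 : ((ns.take (B * h)).sum : ℝ) ≤ S := by
    rw [hS]
    have h3 : (ns.take (B * h)).sum + (ns.drop (B * h)).sum = ns.sum := by
      rw [← List.sum_append, List.take_append_drop]
    exact_mod_cast (by omega : (ns.take (B * h)).sum ≤ ns.sum)
  have S0 : 0 ≤ S := by
    rw [hS]
    positivity
  have h3 : 1 ≤ (B : ℝ) * ε := by
    have h4 : 1 / ε ≤ (B : ℝ) := by
      rw [hB]
      push_cast
      have := Nat.le_ceil (1 / ε)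
      linarith
    rwa [div_le_iff₀ hε] at h4
  have h5 : S ≤ (B : ℝ) * (ε * S) := by
    calc S = 1 * S := (one_mul S).symm
      _ ≤ (B : ℝ) * ε * S := mul_le_mul_of_nonneg_right h3 S0
      _ = _ := by ring
  linarith

end Pool.LAY
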