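import Pool.Agent.H97.LAY.Stmts2

/-!
# LAY: SWP, exchange of the first two entries
-/

set_option autoImplicit false

namespace Pool.LAY

open Finset

theorem swp_pow_up (x f : ℝ) (a : ℕ) (hf : 0 ≤ f) (hfx : f ≤ x) :
    x ^ a - f ^ a ≤ (a : ℝ) * x ^ (a - 1) * (x - f) := by
  rw [← geom_sum₂_mul]
  apply mul_le_mul_of_nonneg_right _ (by linarith)
  calc ∑ i ∈ range a, x ^ i * f ^ (a - 1 - i)
      ≤ ∑ i ∈ range a, x ^ (a - 1) := by
        apply Finset.sum_le_sum
        intro i hi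
        have hi' : i < a := Finset.mem_range.mp hi
        calc x ^ i * f ^ (a - 1 - i) ≤ x ^ i * x ^ (a - 1 - i) := by
              apply mul_le_mul_of_nonneg_left _ (pow_nonneg (by linarith) _)
              exact pow_le_pow_left₀ hf hfx _
          _ = x ^ (a - 1) := by
              rw [← pow_add]; congr 1; omega
    _ = (a : ℝ) * x ^ (a - 1) := by simp

theorem swp_pow_lo (x f : ℝ) (a : ℕ) (hf : 0 ≤ f) (hfx : f ≤ x) :
    (a : ℝ) * f ^ (a - 1) * (x - f) ≤ x ^ a - f ^ a := by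
  rw [← geom_sum₂_mul]
  apply mul_le_mul_of_nonneg_right _ (by linarith)
  calc (a : ℝ) * f ^ (a - 1) = ∑ i ∈ range a, f ^ (a - 1) := by simp
    _ ≤ ∑ i ∈ range a, x ^ i * f ^ (a - 1 - i) := by
        apply Finset.sum_le_sum
        intro i hi
        have hi' : i < a := Finset.mem_range.mp hi
        calc f ^ (a - 1) = f ^ i * f ^ (a - 1 - i) := by
              rw [← pow_add]; congr 1; omega
          _ ≤ x ^ i * f ^ (a - 1 - i) := by
              apply mul_le_mul_of_nonneg_right _ (pow_nonneg hf _)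
              exact pow_le_pow_left₀ hf hfx _

theorem SWP (h1 : IMHStmt) (h2 : QNNStmt) (h3 : QSBStmt) : SWPStmt := by
  intro a b bs x0 x1 tl ha hb hbs hmax hP hx0 hx1
  have hmax' := hmax
  obtain ⟨hnn, hsum, hbest⟩ := hmax
  have htl : NN tl := fun y hy => hnn y (by simp [hy])
  obtain ⟨T1, hT1⟩ : ∃ T, T = Q (b :: bs) tl := ⟨_, rfl⟩
  obtain ⟨V, hV⟩ : ∃ T, T = Q (1 :: b :: bs) tl := ⟨_, rfl⟩
  obtain ⟨R, hR⟩ : ∃ T, T = Q (a :: 1 :: b :: bs) tl := ⟨_, rfl⟩
  have form : ∀ u v : ℝ, Q (a :: 1 :: b :: bs) (u :: v :: tl) =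
      u ^ a * (v * T1 + V) + (v ^ a * V + R) := by
    intro u v
    simp only [Q, pow_one, hT1, hV, hR]
  have T0 : 0 ≤ T1 := hT1 ▸ (h2 _ _ htl).1
  have V0 : 0 ≤ V := hV ▸ (h2 _ _ htl).1
  have hsum' : x0 + (x1 + tl.sum) = 1 := by
    simpa only [List.sum_cons] using hsum
  have s0 : 0 ≤ tl.sum := List.sum_nonneg htl
  have Tpos : 0 < T1 := by
    rcases T0.lt_or_eq with h | h
    · exact h
    · exfalso
      have hV' : V ≤ Q [1] tl * T1 := by
        have := h3 [1] (b :: bs) tl htl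
        rw [hV, hT1]
        exact this
      rw [← h, mul_zero] at hV'
      have hV0 : V = 0 := le_antisymm hV' V0
      have hPR : Q (a :: 1 :: b :: bs) (x0 :: x1 :: tl) = R := by
        rw [form, ← h, hV0]
        ring
      have h4 := h1 (a :: 1 :: b :: bs) (x0 :: x1 :: tl) tl (by simp) (by
        intro l hl
        simp only [List.mem_cons] at hl
        rcases hl with rfl | rfl | rfl | hl
        · omega
        · exact le_rfl
        · exact hb
        · exact hbs l hl) hmax' htl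
      rw [← hR, ← hPR] at h4
      have h5 : tl.sum ^ (a :: 1 :: b :: bs).sum < 1 := by
        apply pow_lt_one₀ s0
        · linarith
        · rw [List.sum_cons]
          omega
      have h6 := mul_lt_mul_of_pos_left h5 hP
      linarith
  -- exchange
  have hex : x1 ≤ x0 := by
    have h4 := hbest (x1 :: x0 :: tl) (by
      intro y hy
      simp only [List.mem_cons] at hy
      rcases hy with rfl | rfl | hy
      · exact hx1.le
      · exact hx0.le
      · exact htl y hy) (by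
      simp only [List.sum_cons]
      linarith)
    rw [form, form] at h4
    have h5 : (x0 * x1 * T1) * x1 ^ (a - 1) ≤ (x0 * x1 * T1) * x0 ^ (a - 1) := by
      obtain ⟨k, rfl⟩ : ∃ k, a = k + 1 := ⟨a - 1, by omega⟩
      rw [Nat.add_sub_cancel]
      have e1 : x1 ^ (k + 1) * (x0 * T1 + V) + (x0 ^ (k + 1) * V + R) =
          (x0 * x1 * T1) * x1 ^ k + (x1 ^ (k + 1) * V + (x0 ^ (k + 1) * V + R)) := by ring
      have e2 : x0 ^ (k + 1) * (x1 * T1 + V) + (x1 ^ (k + 1) * V + R) =
          (x0 * x1 * T1) * x0 ^ k + (x1 ^ (k + 1) * V + (x0 ^ (k + 1) * V + R)) := by ring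
      rw [e1, e2] at h4
      linarith
    have h6 : x1 ^ (a - 1) ≤ x0 ^ (a - 1) := le_of_mul_le_mul_left h5 (by positivity)
    exact le_of_pow_le_pow_left₀ (by omega) hx0.le h6
  -- the derivative
  have key : ∀ e : ℝ, 0 < e → e < x1 →
      (a : ℝ) * x0 ^ (a - 1) * (x1 * T1 + V) ≤
        (x0 + e) ^ a * T1 + (a : ℝ) * x1 ^ (a - 1) * V := by
    intro e he hex
    have h4 := hbest ((x0 + e) :: (x1 - e) :: tl) (by
      intro y hy
      simp only [List.mem_cons] at hy
      rcases hy with rfl | rfl | hy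
      · linarith
      · linarith
      · exact htl y hy) (by
      simp only [List.sum_cons]
      linarith)
    rw [form, form] at h4
    have h5 := mul_le_mul_of_nonneg_right (swp_pow_lo (x0 + e) x0 a hx0.le (by linarith))
      (by positivity : 0 ≤ x1 * T1 + V)
    have h6 := mul_le_mul_of_nonneg_right (swp_pow_up x1 (x1 - e) a (by linarith) (by linarith)) V0
    have h7 : ((a : ℝ) * x0 ^ (a - 1) * (x1 * T1 + V)) * e ≤
        ((x0 + e) ^ a * T1 + (a : ℝ) * x1 ^ (a - 1) * V) * e := by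
      have e1 : ((a : ℝ) * x0 ^ (a - 1) * (x1 * T1 + V)) * e =
          (a : ℝ) * x0 ^ (a - 1) * (x0 + e - x0) * (x1 * T1 + V) := by ring
      have e2 : ((x0 + e) ^ a * T1 + (a : ℝ) * x1 ^ (a - 1) * V) * e =
          (x0 + e) ^ a * (x1 * T1 + V) - (x0 + e) ^ a * ((x1 - e) * T1 + V) +
            (a : ℝ) * x1 ^ (a - 1) * (x1 - (x1 - e)) * V := by ring
      rw [e1, e2]
      refine h5.trans ?_
      rw [sub_mul] at h6 ⊢
      linarith
    exact le_of_mul_le_mul_right h7 he
  have hfin : (a : ℝ) * x0 ^ (a - 1) * (x1 * T1 + V) ≤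
      x0 ^ a * T1 + (a : ℝ) * x1 ^ (a - 1) * V := by
    have hcont : Filter.Tendsto (fun e : ℝ => (x0 + e) ^ a * T1 + (a : ℝ) * x1 ^ (a - 1) * V)
        (nhdsWithin 0 (Set.Ioi 0)) (nhds (x0 ^ a * T1 + (a : ℝ) * x1 ^ (a - 1) * V)) := by
      have hc : Continuous (fun e : ℝ => (x0 + e) ^ a * T1 + (a : ℝ) * x1 ^ (a - 1) * V) := by
        fun_prop
      have := hc.tendsto 0
      simp only [add_zero] at this
      exact this.mono_left nhdsWithin_le_nhds
    refine ge_of_tendsto hcont ?_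
    have : Set.Ioo (0 : ℝ) x1 ∈ nhdsWithin (0 : ℝ) (Set.Ioi 0) := Ioo_mem_nhdsGT hx1
    filter_upwards [this] with e he
    exact key e he.1 he.2
  have hpw : x1 ^ (a - 1) ≤ x0 ^ (a - 1) := pow_le_pow_left₀ hx1.le hex _
  have h8 : (a : ℝ) * x1 ^ (a - 1) * V ≤ (a : ℝ) * x0 ^ (a - 1) * V := by
    have : (0 : ℝ) ≤ (a : ℝ) * V := by positivity
    have := mul_le_mul_of_nonneg_left hpw this
    linarith
  have h9 : (x0 ^ (a - 1) * T1) * ((a : ℝ) * x1) ≤ (x0 ^ (a - 1) * T1) * x0 := by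
    have e1 : (x0 ^ (a - 1) * T1) * x0 = x0 ^ a * T1 := by
      have : x0 ^ a = x0 ^ (a - 1) * x0 := by
        rw [← pow_succ]
        congr 1
        omega
      rw [this]
      ring
    rw [e1]
    have e2 : (a : ℝ) * x0 ^ (a - 1) * (x1 * T1 + V) =
        (x0 ^ (a - 1) * T1) * ((a : ℝ) * x1) + (a : ℝ) * x0 ^ (a - 1) * V := by ring
    rw [e2] at hfin
    linarith
  exact le_of_mul_le_mul_left h9 (by positivity)

end Pool.LAY
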